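import Mathlib
import Pool.Agent.H286R2.UC.Defs
import Pool.Agent.H117R2.Golden2

set_option autoImplicit false

namespace Pool.Agent.H286R2.UC

open Real Finset Pool.Agent.H117R2 Pool.Agent.H117R2.UC

theorem NN_diag_le {x : ℝ} (h0 : 0 ≤ x) (h1 : x ≤ 1) : NN x x ≤ 191 / 500 * (x * hb x) := by
  have key := Gold.two_var h0 h1 h0 h1
  have hq := Gold.q_lb
  have e : NN x x = 2 * (x * hb x) - hb (x * x) := by
    unfold NN MM hb
    rw [negMulLog_mul]
    ring
  have hh : Gold.h2 = hb := by
    funext t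
    rfl
  rw [hh] at key
  have hn : 0 ≤ x * hb x := by
    apply mul_nonneg h0
    unfold hb
    exact add_nonneg (negMulLog_nonneg h0 h1) (negMulLog_nonneg (by linarith) (by linarith))
  have h3 : 1.618 * (x * hb x) ≤ Gold.q * (x * hb x) := mul_le_mul_of_nonneg_right hq.le hn
  rw [e]
  linarith

end Pool.Agent.H286R2.UC
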